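import Pool.Agent.Helper89.Stz.Defs

/-! # Tools for the averages `av` -/

set_option autoImplicit false

namespace Stz

namespace AvT

open Finset

variable (A : ℕ) (Q : Finset ℕ)

/-- the unnormalised average -/
noncomputable def sm (Φ : ℕ → ZMod A → ℝ) : ℝ :=
  ∑ p ∈ Q.offDiag, ((p.1 : ℝ) * p.2)⁻¹ *
    ∑ a ∈ range p.1, ∑ a' ∈ range p.2, Φ (p.1 * p.2) (sh A p.1 p.2 a a')

theorem av_eq (Φ : ℕ → ZMod A → ℝ) : av A Q Φ = (Q.offDiag.card : ℝ)⁻¹ * sm A Q Φ := rfl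

theorem card_pos (h : 2 ≤ Q.card) : 0 < Q.offDiag.card := by
  rw [Finset.offDiag_card]
  have : Q.card * 2 ≤ Q.card * Q.card := Nat.mul_le_mul_left _ h
  omega

theorem card_le : (Q.offDiag.card : ℝ) ≤ (Q.card : ℝ) ^ 2 := by
  have h : Q.offDiag.card ≤ Q.card * Q.card := by
    rw [Finset.offDiag_card]
    omega
  calc (Q.offDiag.card : ℝ) ≤ ((Q.card * Q.card : ℕ) : ℝ) := by exact_mod_cast h
    _ = (Q.card : ℝ) ^ 2 := by push_cast; ring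

theorem sm_eq (h : 2 ≤ Q.card) (Φ : ℕ → ZMod A → ℝ) : sm A Q Φ = Q.offDiag.card * av A Q Φ := by
  have h1 : (0 : ℝ) < Q.offDiag.card := by exact_mod_cast card_pos Q h
  rw [av_eq, ← mul_assoc, mul_inv_cancel₀ h1.ne', one_mul]

theorem sm_mono {Φ Ψ : ℕ → ZMod A → ℝ}
    (h : ∀ p ∈ Q.offDiag, ∀ a ∈ range p.1, ∀ a' ∈ range p.2,
      Φ (p.1 * p.2) (sh A p.1 p.2 a a') ≤ Ψ (p.1 * p.2) (sh A p.1 p.2 a a')) :
    sm A Q Φ ≤ sm A Q Ψ := by
  apply Finset.sum_le_sum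
  intro p hp
  apply mul_le_mul_of_nonneg_left _ (by positivity)
  apply Finset.sum_le_sum
  intro a ha
  apply Finset.sum_le_sum
  intro a' ha'
  exact h p hp a ha a' ha'

theorem av_mono {Φ Ψ : ℕ → ZMod A → ℝ}
    (h : ∀ p ∈ Q.offDiag, ∀ a ∈ range p.1, ∀ a' ∈ range p.2,
      Φ (p.1 * p.2) (sh A p.1 p.2 a a') ≤ Ψ (p.1 * p.2) (sh A p.1 p.2 a a')) :
    av A Q Φ ≤ av A Q Ψ := by
  rw [av_eq, av_eq]
  exact mul_le_mul_of_nonneg_left (sm_mono A Q h) (by positivity)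

theorem sm_nonneg {Φ : ℕ → ZMod A → ℝ}
    (h : ∀ p ∈ Q.offDiag, ∀ a ∈ range p.1, ∀ a' ∈ range p.2,
      0 ≤ Φ (p.1 * p.2) (sh A p.1 p.2 a a')) : 0 ≤ sm A Q Φ := by
  apply Finset.sum_nonneg
  intro p hp
  apply mul_nonneg (by positivity)
  apply Finset.sum_nonneg
  intro a ha
  apply Finset.sum_nonneg
  intro a' ha'
  exact h p hp a ha a' ha'

theorem av_nonneg {Φ : ℕ → ZMod A → ℝ}
    (h : ∀ p ∈ Q.offDiag, ∀ a ∈ range p.1, ∀ a' ∈ range p.2,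
      0 ≤ Φ (p.1 * p.2) (sh A p.1 p.2 a a')) : 0 ≤ av A Q Φ := by
  rw [av_eq]
  exact mul_nonneg (by positivity) (sm_nonneg A Q h)

theorem sm_add (Φ Ψ : ℕ → ZMod A → ℝ) :
    sm A Q (fun d s => Φ d s + Ψ d s) = sm A Q Φ + sm A Q Ψ := by
  unfold sm
  rw [← Finset.sum_add_distrib]
  refine Finset.sum_congr rfl fun p _ => ?_
  rw [← mul_add, ← Finset.sum_add_distrib]
  congr 1
  refine Finset.sum_congr rfl fun a _ => ?_
  rw [← Finset.sum_add_distrib]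

theorem av_add (Φ Ψ : ℕ → ZMod A → ℝ) :
    av A Q (fun d s => Φ d s + Ψ d s) = av A Q Φ + av A Q Ψ := by
  rw [av_eq, av_eq, av_eq, sm_add, mul_add]

theorem sm_mul (r : ℝ) (Φ : ℕ → ZMod A → ℝ) :
    sm A Q (fun d s => r * Φ d s) = r * sm A Q Φ := by
  unfold sm
  rw [Finset.mul_sum]
  refine Finset.sum_congr rfl fun p _ => ?_
  simp only [← Finset.mul_sum]
  ring

theorem av_mul (r : ℝ) (Φ : ℕ → ZMod A → ℝ) :
    av A Q (fun d s => r * Φ d s) = r * av A Q Φ := by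
  rw [av_eq, av_eq, sm_mul]
  ring

theorem sm_sum {ι : Type*} (t : Finset ι) (Φ : ι → ℕ → ZMod A → ℝ) :
    sm A Q (fun d s => ∑ i ∈ t, Φ i d s) = ∑ i ∈ t, sm A Q (Φ i) := by
  classical
  induction t using Finset.induction_on with
  | empty => simp [sm]
  | insert i t hi ih =>
    rw [Finset.sum_insert hi, ← ih, ← sm_add]
    congr 1
    funext d s
    rw [Finset.sum_insert hi]

theorem av_sum {ι : Type*} (t : Finset ι) (Φ : ι → ℕ → ZMod A → ℝ) :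
    av A Q (fun d s => ∑ i ∈ t, Φ i d s) = ∑ i ∈ t, av A Q (Φ i) := by
  rw [av_eq, sm_sum, Finset.mul_sum]
  rfl

theorem sm_const (hQ : ∀ q ∈ Q, 0 < q) (r : ℝ) : sm A Q (fun _ _ => r) = Q.offDiag.card * r := by
  unfold sm
  have h : ∀ p ∈ Q.offDiag, ((p.1 : ℝ) * p.2)⁻¹ *
      ∑ _a ∈ range p.1, ∑ _a' ∈ range p.2, r = r := by
    intro p hp
    rw [Finset.mem_offDiag] at hp
    have h1 : (0 : ℝ) < p.1 := by exact_mod_cast hQ _ hp.1
    have h2 : (0 : ℝ) < p.2 := by exact_mod_cast hQ _ hp.2.1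
    simp only [Finset.sum_const, Finset.card_range, nsmul_eq_mul]
    field_simp
  rw [Finset.sum_congr rfl h, Finset.sum_const, nsmul_eq_mul]

theorem av_const (h2 : 2 ≤ Q.card) (hQ : ∀ q ∈ Q, 0 < q) (r : ℝ) :
    av A Q (fun _ _ => r) = r := by
  have h1 : (0 : ℝ) < Q.offDiag.card := by exact_mod_cast card_pos Q h2
  rw [av_eq, sm_const A Q hQ, ← mul_assoc, inv_mul_cancel₀ h1.ne', one_mul]

end AvT

end Stz
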