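import Pool.Agent.Helper35.Stz.Sieve
import Pool.Agent.Helper70.Stz.AvT

/-! # B2: degrees -/

set_option autoImplicit false

namespace Stz

open Finset

theorem deg_lemma (A N : ℕ) [NeZero A] (hN : 1 ≤ N) (I : Finset ℕ)
    (hI : ∀ n ∈ I, 1 ≤ n ∧ n ^ 2 < A) (x : ZMod A → ZMod A) (g : ZMod A → ℂ)
    (hg : ∀ z, ‖g z‖ ≤ 1) (R : Finset (ZMod A)) (c : ℝ) (hc : 0 < c)
    (hR : ∀ R' ⊆ R, c * N * (mu A R') ^ 2 ≤ Eg A I N x (fun z => if z ∈ R' then g z else 0))
    (Q : Finset ℕ) (Y : ℕ) (hQ : ∀ q ∈ Q, q.Prime ∧ q ≠ 2 ∧ q ∣ A ∧ Y ≤ q ∧ q ≤ 2 * Y)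
    (hQ2 : 2 ≤ Q.card) (hQI : ∀ n ∈ I, 2 * (Q.filter fun q => q ∣ n).card ≤ Q.card)
    (hY : 4 * Y ^ 2 ≤ N) (μ₀ γ τ : ℝ) (hμ : 0 < μ₀) (hγ : 0 < γ)
    (h1 : 64 / Q.card ≤ c * μ₀) (h2 : 64 * (Y : ℝ) ^ 4 / (N ^ 2 * γ ^ 2) ≤ c * μ₀)
    (h3 : 48 * τ ≤ c * μ₀) :
    mu A (R.filter fun z => dg A Q x R γ z < τ) ≤ μ₀ := by
  classical
  set R' := R.filter fun z => dg A Q x R γ z < τ with hR'
  by_contra hcon
  push Not at hcon
  have hA0 : 0 < A := Nat.pos_of_ne_zero (NeZero.ne A)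
  have hAR : (0 : ℝ) < A := by exact_mod_cast hA0
  have hNR : (1 : ℝ) ≤ N := by exact_mod_cast hN
  have hN0 : (0 : ℝ) < N := by linarith
  have hQne : Q.Nonempty := by
    rw [← Finset.card_pos]; omega
  have hQc : (0 : ℝ) < Q.card := by exact_mod_cast Finset.card_pos.mpr hQne
  set h : ZMod A → ℂ := fun z => if z ∈ R' then g z else 0 with hh
  have hle := hR R' (Finset.filter_subset _ _)
  have hsv := sieve_graph A N hN I hI Q (fun q hq => ⟨(hQ q hq).1, (hQ q hq).2.1, (hQ q hq).2.2.1⟩)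
    hQne hQI x h
  set μ := mu A R' with hμ'
  have hμ0 : 0 < μ := lt_trans hμ hcon
  -- norms
  have hh1 : ∀ z, ‖h z‖ ≤ if z ∈ R' then 1 else 0 := by
    intro z
    simp only [hh]
    split_ifs
    · exact hg z
    · simp
  have hh0 : ∀ z, 0 ≤ ‖h z‖ := fun z => norm_nonneg _
  have hh2 : ∀ z, ‖h z‖ ≤ 1 := fun z => (hh1 z).trans (by split_ifs <;> norm_num)
  have hS1 : (A : ℝ)⁻¹ * ∑ z, ‖h z‖ ^ 2 ≤ μ := by
    have h4 : ∑ z, ‖h z‖ ^ 2 ≤ ∑ z, (if z ∈ R' then (1 : ℝ) else 0) := by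
      apply Finset.sum_le_sum
      intro z _
      calc ‖h z‖ ^ 2 = ‖h z‖ * ‖h z‖ := sq _
        _ ≤ ‖h z‖ * 1 := mul_le_mul_of_nonneg_left (hh2 z) (hh0 z)
        _ ≤ _ := by rw [mul_one]; exact hh1 z
    rw [Finset.sum_ite_mem, Finset.univ_inter, Finset.sum_const, nsmul_eq_mul, mul_one] at h4
    calc (A : ℝ)⁻¹ * ∑ z, ‖h z‖ ^ 2 ≤ (A : ℝ)⁻¹ * R'.card := by gcongr
      _ = μ := by rw [hμ', mu]; ring
  -- the error
  set Er : ℝ := 4 * (Y : ℝ) ^ 4 / (N * γ ^ 2) with hEr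
  have hEr0 : 0 ≤ Er := by positivity
  have hTh : ∀ p ∈ Q.offDiag, ∀ u : ZMod A, Th A N (p.1 * p.2) u ≤
      6 * N * (if nrm A (((p.1 * p.2 : ℕ) : ZMod A) * u) ≤ γ then 1 else 0) + Er := by
    intro p hp u
    rw [Finset.mem_offDiag] at hp
    have hp1 := hQ _ hp.1
    have hp2 := hQ _ hp.2.1
    have hd1 : 1 ≤ p.1 * p.2 := Nat.mul_pos hp1.1.pos hp2.1.pos
    have hd4 : p.1 * p.2 ≤ 4 * Y ^ 2 := by
      calc p.1 * p.2 ≤ (2 * Y) * (2 * Y) := Nat.mul_le_mul hp1.2.2.2.2 hp2.2.2.2.2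
        _ = 4 * Y ^ 2 := by ring
    have hdR : ((p.1 * p.2 : ℕ) : ℝ) ≤ 4 * (Y : ℝ) ^ 2 := by exact_mod_cast hd4
    have hdN : ((p.1 * p.2 : ℕ) : ℝ) ≤ N := by exact_mod_cast hd4.trans hY
    by_cases hn : nrm A (((p.1 * p.2 : ℕ) : ZMod A) * u) ≤ γ
    · rw [if_pos hn]
      have := Th_le A N (p.1 * p.2) hd1 hN u
      linarith
    · rw [if_neg hn]
      have h4 := Th_far A N (p.1 * p.2) hd1 hN u γ hγ (not_le.mp hn).le
      have h5 : ((p.1 * p.2 : ℕ) : ℝ) ^ 2 / (4 * N * γ ^ 2) ≤ Er := by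
        rw [hEr, div_le_div_iff₀ (by positivity) (by positivity)]
        have h6 : ((p.1 * p.2 : ℕ) : ℝ) ^ 2 ≤ (4 * (Y : ℝ) ^ 2) ^ 2 := by gcongr
        have h7 : (0 : ℝ) ≤ N * γ ^ 2 := by positivity
        calc ((p.1 * p.2 : ℕ) : ℝ) ^ 2 * (N * γ ^ 2) ≤ (4 * (Y : ℝ) ^ 2) ^ 2 * (N * γ ^ 2) := by
              gcongr
          _ = 4 * (Y : ℝ) ^ 4 * (4 * N * γ ^ 2) := by ring
      linarith
  -- second term
  have hS2 : ∑ p ∈ Q.offDiag, ((p.1 : ℝ) * p.2)⁻¹ *
        ∑ a ∈ range p.1, ∑ a' ∈ range p.2, (A : ℝ)⁻¹ * ∑ z : ZMod A,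
          ‖h z‖ * ‖h (z + sh A p.1 p.2 a a')‖ *
            Th A N (p.1 * p.2) (x (z + sh A p.1 p.2 a a') - x z) ≤
      (Q.card : ℝ) ^ 2 * (6 * N * τ * μ + Er * μ) := by
    have h4 : ∑ p ∈ Q.offDiag, ((p.1 : ℝ) * p.2)⁻¹ *
        ∑ a ∈ range p.1, ∑ a' ∈ range p.2, (A : ℝ)⁻¹ * ∑ z : ZMod A,
          ‖h z‖ * ‖h (z + sh A p.1 p.2 a a')‖ *
            Th A N (p.1 * p.2) (x (z + sh A p.1 p.2 a a') - x z) ≤
        AvT.sm A Q (fun d s => ∑ z ∈ R', (A : ℝ)⁻¹ * (6 * N *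
          (if z + s ∈ R ∧ nrm A ((d : ZMod A) * (x (z + s) - x z)) ≤ γ then 1 else 0) + Er)) := by
      unfold AvT.sm
      apply Finset.sum_le_sum
      intro p hp
      apply mul_le_mul_of_nonneg_left _ (by positivity)
      apply Finset.sum_le_sum
      intro a _
      apply Finset.sum_le_sum
      intro a' _
      beta_reduce
      rw [← Finset.mul_sum]
      apply mul_le_mul_of_nonneg_left _ (by positivity)
      calc ∑ z : ZMod A, ‖h z‖ * ‖h (z + sh A p.1 p.2 a a')‖ *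
            Th A N (p.1 * p.2) (x (z + sh A p.1 p.2 a a') - x z)
          ≤ ∑ z : ZMod A, (if z ∈ R' then (6 * N *
          (if z + sh A p.1 p.2 a a' ∈ R ∧ nrm A (((p.1 * p.2 : ℕ) : ZMod A) *
            (x (z + sh A p.1 p.2 a a') - x z)) ≤ γ then 1 else 0) + Er) else 0) := by
            apply Finset.sum_le_sum
            intro z _
            by_cases hz : z ∈ R'
            · rw [if_pos hz]
              by_cases hz2 : z + sh A p.1 p.2 a a' ∈ R'
              · have hz3 : z + sh A p.1 p.2 a a' ∈ R := (Finset.mem_filter.mp hz2).1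
                simp only [hz3, true_and]
                have h5 := hTh p hp (x (z + sh A p.1 p.2 a a') - x z)
                have h6 : 0 ≤ ‖h z‖ * ‖h (z + sh A p.1 p.2 a a')‖ := by positivity
                have h7 : ‖h z‖ * ‖h (z + sh A p.1 p.2 a a')‖ ≤ 1 := by
                  have := mul_le_mul (hh2 z) (hh2 (z + sh A p.1 p.2 a a')) (hh0 _) zero_le_one
                  linarith
                calc _ ≤ ‖h z‖ * ‖h (z + sh A p.1 p.2 a a')‖ * (6 * N * (if nrm A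
                      (((p.1 * p.2 : ℕ) : ZMod A) * (x (z + sh A p.1 p.2 a a') - x z)) ≤ γ
                      then 1 else 0) + Er) := mul_le_mul_of_nonneg_left h5 h6
                  _ ≤ 1 * (6 * N * (if nrm A
                      (((p.1 * p.2 : ℕ) : ZMod A) * (x (z + sh A p.1 p.2 a a') - x z)) ≤ γ
                      then 1 else 0) + Er) := by
                      apply mul_le_mul_of_nonneg_right h7
                      have : (0 : ℝ) ≤ 6 * N * (if nrm A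
                        (((p.1 * p.2 : ℕ) : ZMod A) * (x (z + sh A p.1 p.2 a a') - x z)) ≤ γ
                        then 1 else 0) := by
                        apply mul_nonneg (by positivity)
                        split_ifs <;> norm_num
                      linarith
                  _ = _ := one_mul _
              · have h5 : ‖h (z + sh A p.1 p.2 a a')‖ = 0 := by simp [hh, hz2]
                rw [h5, mul_zero, zero_mul]
                apply add_nonneg _ hEr0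
                apply mul_nonneg (by positivity)
                split_ifs <;> norm_num
            · have h5 : ‖h z‖ = 0 := by simp [hh, hz]
              rw [if_neg hz, h5, zero_mul, zero_mul]
        _ = _ := by
            rw [Finset.sum_ite_mem, Finset.univ_inter]
    refine h4.trans ?_
    rw [AvT.sm_sum]
    have h5 : ∀ z ∈ R', AvT.sm A Q (fun d s => (A : ℝ)⁻¹ * (6 * N *
          (if z + s ∈ R ∧ nrm A ((d : ZMod A) * (x (z + s) - x z)) ≤ γ then 1 else 0) + Er)) ≤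
        (A : ℝ)⁻¹ * ((Q.card : ℝ) ^ 2 * (6 * N * τ + Er)) := by
      intro z hz
      rw [AvT.sm_mul, AvT.sm_add, AvT.sm_mul, AvT.sm_const A Q (fun q hq => (hQ q hq).1.pos),
        AvT.sm_eq A Q hQ2]
      apply mul_le_mul_of_nonneg_left _ (by positivity)
      have h6 : av A Q (fun d s => if z + s ∈ R ∧ nrm A ((d : ZMod A) * (x (z + s) - x z)) ≤ γ
          then (1 : ℝ) else 0) < τ := by
        have := (Finset.mem_filter.mp hz).2
        unfold dg at this
        convert this using 4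
      have h7 : 0 ≤ av A Q (fun d s => if z + s ∈ R ∧ nrm A ((d : ZMod A) * (x (z + s) - x z)) ≤ γ
          then (1 : ℝ) else 0) := by
        apply AvT.av_nonneg
        intro p _ a _ a' _
        split_ifs <;> norm_num
      have h8 := AvT.card_le Q
      have h9 : (0 : ℝ) ≤ Q.offDiag.card := Nat.cast_nonneg _
      calc _ = (Q.offDiag.card : ℝ) * (6 * N * av A Q (fun d s =>
            if z + s ∈ R ∧ nrm A ((d : ZMod A) * (x (z + s) - x z)) ≤ γ then (1 : ℝ) else 0) + Er) := by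
            ring
        _ ≤ (Q.card : ℝ) ^ 2 * (6 * N * τ + Er) := by
            apply mul_le_mul h8 _ _ (by positivity)
            · have := mul_le_mul_of_nonneg_left h6.le (by positivity : (0 : ℝ) ≤ 6 * N)
              linarith
            · have : (0 : ℝ) ≤ 6 * N * av A Q (fun d s =>
                if z + s ∈ R ∧ nrm A ((d : ZMod A) * (x (z + s) - x z)) ≤ γ then (1 : ℝ) else 0) :=
                mul_nonneg (by positivity) h7
              linarith
    calc _ ≤ ∑ _z ∈ R', (A : ℝ)⁻¹ * ((Q.card : ℝ) ^ 2 * (6 * N * τ + Er)) :=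
          Finset.sum_le_sum h5
      _ = _ := by
          rw [Finset.sum_const, nsmul_eq_mul, hμ', mu]
          ring
  -- conclusion
  have hfin : c * N * μ ^ 2 ≤ 16 * N / Q.card * μ + 4 * (6 * N * τ * μ + Er * μ) := by
    calc c * N * μ ^ 2 ≤ Eg A I N x h := hle
      _ ≤ _ := hsv
      _ ≤ 16 * N / Q.card * μ + 4 / (Q.card : ℝ) ^ 2 *
          ((Q.card : ℝ) ^ 2 * (6 * N * τ * μ + Er * μ)) := by
          apply add_le_add
          · exact mul_le_mul_of_nonneg_left hS1 (by positivity)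
          · exact mul_le_mul_of_nonneg_left hS2 (by positivity)
      _ = _ := by
          field_simp
  have hfin2 : c * μ ≤ 16 / Q.card + 24 * τ + 16 * (Y : ℝ) ^ 4 / (N ^ 2 * γ ^ 2) := by
    have h4 : (N * μ) * (c * μ) ≤
        (N * μ) * (16 / Q.card + 24 * τ + 16 * (Y : ℝ) ^ 4 / (N ^ 2 * γ ^ 2)) := by
      calc (N * μ) * (c * μ) = c * N * μ ^ 2 := by ring
        _ ≤ _ := hfin
        _ = _ := by
            rw [hEr]
            field_simp
            ring
    exact le_of_mul_le_mul_left h4 (by positivity)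
  have h4 : 16 / (Q.card : ℝ) = (64 / Q.card) / 4 := by ring
  have h5 : 16 * (Y : ℝ) ^ 4 / (N ^ 2 * γ ^ 2) = (64 * (Y : ℝ) ^ 4 / (N ^ 2 * γ ^ 2)) / 4 := by ring
  have h6 : c * μ ≤ c * μ₀ := by
    rw [h4, h5] at hfin2
    linarith
  have h7 := le_of_mul_le_mul_left h6 hc
  linarith

end Stz
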