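import Pool.Agent.Helper80.Stz.Four
import Pool.Agent.Helper65.Stz.Basic
import Pool.Agent.Helper70.Stz.AvT

/-! # B5: popular pairs -/

set_option autoImplicit false

namespace Stz

open Finset

namespace Pop

theorem sum_sq (n : ℕ) (c : ℝ) : ∑ j ∈ range n, ((j : ℝ) - c) ^ 2 =
    (n : ℝ) * (n - 1) * (2 * n - 1) / 6 - c * (n * (n - 1)) + c ^ 2 * n := by
  induction n with
  | zero => simp
  | succ n ih =>
    rw [Finset.sum_range_succ, ih]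
    push_cast
    ring

theorem dir_lower (H : ℕ) (hH : 1 ≤ H) (t : ℝ) (ht : 2 * H * |t| ≤ 1) :
    0.34 * (H : ℝ) ^ 2 ≤
      ‖∑ j ∈ range H, Complex.exp (((2 * Real.pi * (j * t) : ℝ) : ℂ) * Complex.I)‖ ^ 2 := by
  set c : ℝ := ((H : ℝ) - 1) / 2 with hc
  have hHR : (1 : ℝ) ≤ H := by exact_mod_cast hH
  set r : ℂ := Complex.exp (((2 * Real.pi * (-(c * t)) : ℝ) : ℂ) * Complex.I) with hr
  have hr1 : ‖r‖ = 1 := Complex.norm_exp_ofReal_mul_I _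
  set Sg := ∑ j ∈ range H, Complex.exp (((2 * Real.pi * (j * t) : ℝ) : ℂ) * Complex.I) with hSg
  have h1 : ‖Sg‖ = ‖r * Sg‖ := by rw [norm_mul, hr1, one_mul]
  have h2 : (r * Sg).re = ∑ j ∈ range H, Real.cos (2 * Real.pi * (((j : ℝ) - c) * t)) := by
    rw [hSg, Finset.mul_sum, Complex.re_sum]
    refine Finset.sum_congr rfl fun j _ => ?_
    rw [hr, ← Complex.exp_add, ← add_mul, ← Complex.ofReal_add, Complex.exp_ofReal_mul_I_re]
    congr 1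
    ring
  have h3 : (H : ℝ) * (1 - Real.pi ^ 2 / 24) ≤ (r * Sg).re := by
    rw [h2]
    have h4 : ∀ j ∈ range H, 1 - 2 * Real.pi ^ 2 * t ^ 2 * ((j : ℝ) - c) ^ 2 ≤
        Real.cos (2 * Real.pi * (((j : ℝ) - c) * t)) := by
      intro j _
      have h5 := Real.one_sub_sq_div_two_le_cos (x := 2 * Real.pi * (((j : ℝ) - c) * t))
      have h6 : 1 - 2 * Real.pi ^ 2 * t ^ 2 * ((j : ℝ) - c) ^ 2 =
        1 - (2 * Real.pi * (((j : ℝ) - c) * t)) ^ 2 / 2 := by ring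
      rw [h6]
      exact h5
    refine le_trans ?_ (Finset.sum_le_sum h4)
    rw [Finset.sum_sub_distrib, ← Finset.mul_sum, sum_sq, Finset.sum_const, Finset.card_range,
      nsmul_eq_mul, mul_one]
    have h5 : (H : ℝ) * (H - 1) * (2 * H - 1) / 6 - c * (H * (H - 1)) + c ^ 2 * H =
        H * (H ^ 2 - 1) / 12 := by
      rw [hc]; ring
    rw [h5]
    have h6 : (2 * (H : ℝ) * |t|) ^ 2 ≤ 1 := by
      have : 0 ≤ 2 * (H : ℝ) * |t| := by positivity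
      nlinarith
    have h7 : 4 * (H : ℝ) ^ 2 * t ^ 2 ≤ 1 := by
      calc 4 * (H : ℝ) ^ 2 * t ^ 2 = (2 * (H : ℝ) * |t|) ^ 2 := by
            rw [mul_pow, sq_abs]; ring
        _ ≤ 1 := h6
    have h8 : 2 * Real.pi ^ 2 * t ^ 2 * ((H : ℝ) * (H ^ 2 - 1) / 12) ≤ H * (Real.pi ^ 2 / 24) := by
      have h9 : 2 * Real.pi ^ 2 * t ^ 2 * ((H : ℝ) * (H ^ 2 - 1) / 12) =
          (H * (Real.pi ^ 2 / 24)) * (4 * (H : ℝ) ^ 2 * t ^ 2) -
            (H * (Real.pi ^ 2 / 24)) * (4 * t ^ 2) := by ring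
      rw [h9]
      have h10 : 0 ≤ (H : ℝ) * (Real.pi ^ 2 / 24) := by positivity
      have h11 : 0 ≤ ((H : ℝ) * (Real.pi ^ 2 / 24)) * (4 * t ^ 2) := by positivity
      have := mul_le_mul_of_nonneg_left h7 h10
      linarith
    nlinarith
  have hpi : Real.pi ^ 2 ≤ 9.87 := by
    have h4 := Real.pi_lt_d4
    have h5 := Real.pi_pos
    nlinarith
  have h4 : 0.587 * (H : ℝ) ≤ ‖Sg‖ := by
    calc 0.587 * (H : ℝ) ≤ (H : ℝ) * (1 - Real.pi ^ 2 / 24) := by nlinarith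
      _ ≤ (r * Sg).re := h3
      _ ≤ ‖r * Sg‖ := Complex.re_le_norm _
      _ = ‖Sg‖ := h1.symm
  have h5 : (0.587 * (H : ℝ)) ^ 2 ≤ ‖Sg‖ ^ 2 := by gcongr
  nlinarith

variable (A : ℕ) [NeZero A]

theorem ps_add (x y : ZMod A) : ps A (x + y) = ps A x * ps A y := AddChar.map_add_eq_mul _ _ _

theorem norm_ps (x : ZMod A) : ‖ps A x‖ = 1 := AddChar.norm_apply _ _

theorem ps_neg (x : ZMod A) : ps A (-x) = (starRingEnd ℂ) (ps A x) := by
  unfold ps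
  exact AddChar.map_neg_eq_conj _ _

theorem ps_int (n : ℤ) : ps A (n : ZMod A) =
    Complex.exp (((2 * Real.pi * (n / A) : ℝ) : ℂ) * Complex.I) := by
  rw [ps, ZMod.stdAddChar_coe]
  congr 1
  push_cast
  ring

theorem sum_lower (H : ℕ) (hH : 1 ≤ H) (u : ZMod A) (hu : 2 * H * nrm A u ≤ 1) :
    0.34 * (H : ℝ) ^ 2 ≤ ‖∑ j ∈ range H, ps A ((j : ZMod A) * u)‖ ^ 2 := by
  have hA0 : 0 < A := Nat.pos_of_ne_zero (NeZero.ne A)
  have hAR : (0 : ℝ) < A := by exact_mod_cast hA0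
  have h1 := dir_lower H hH ((u.valMinAbs : ℝ) / A) (by
    rw [abs_div, abs_of_pos hAR]
    exact hu)
  refine h1.trans (le_of_eq ?_)
  congr 2
  refine Finset.sum_congr rfl fun j _ => ?_
  have h2 : (j : ZMod A) * u = ((j * u.valMinAbs : ℤ) : ZMod A) := by
    rw [Int.cast_mul, ZMod.coe_valMinAbs, Int.cast_natCast]
  rw [h2, ps_int]
  congr 3
  push_cast
  ring

theorem sum_sq_eq (H : ℕ) (u : ZMod A) :
    ‖∑ j ∈ range H, ps A ((j : ZMod A) * u)‖ ^ 2 =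
      ∑ j ∈ range H, ∑ j' ∈ range H, (ps A ((((j : ℤ) - j' : ℤ) : ZMod A) * u)).re := by
  have h1 : ((‖∑ j ∈ range H, ps A ((j : ZMod A) * u)‖ ^ 2 : ℝ) : ℂ) =
      ∑ j ∈ range H, ∑ j' ∈ range H, ps A ((((j : ℤ) - j' : ℤ) : ZMod A) * u) := by
    rw [Complex.ofReal_pow, ← Complex.mul_conj', map_sum, Finset.sum_mul_sum]
    refine Finset.sum_congr rfl fun j _ => Finset.sum_congr rfl fun j' _ => ?_
    rw [← ps_neg, ← ps_add]
    congr 1
    push_cast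
    ring
  have h2 := congrArg Complex.re h1
  rw [Complex.ofReal_re] at h2
  rw [h2, Complex.re_sum]
  refine Finset.sum_congr rfl fun j _ => ?_
  rw [Complex.re_sum]

variable (x : ZMod A → ZMod A) (T : Finset (ZMod A))

theorem fT_norm (k : ℤ) (z : ZMod A) : ‖fT A x T k z‖ ≤ 1 := by
  unfold fT
  split_ifs
  · rw [norm_ps]
  · simp

theorem fT_neg (k : ℤ) (z : ZMod A) : fT A x T (-k) z = (starRingEnd ℂ) (fT A x T k z) := by
  unfold fT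
  split_ifs
  · rw [← ps_neg]
    congr 1
    push_cast
    ring
  · simp

/-- the four-corner product -/
noncomputable def prod4 (f : ZMod A → ℂ) (s1 s2 s3 z : ZMod A) : ℝ :=
  (f z * (starRingEnd ℂ) (f (z + s1)) * (starRingEnd ℂ) (f (z + s2)) * f (z + s1 + s2 + s3)).re

theorem prod4_fT (d : ℕ) (m : ℤ) (s1 s2 s3 z : ZMod A) :
    prod4 A (fT A x T (d * m)) s1 s2 s3 z =
      (if z ∈ T ∧ z + s1 ∈ T ∧ z + s2 ∈ T ∧ z + s1 + s2 + s3 ∈ T then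
        (ps A ((m : ZMod A) * ((d : ZMod A) *
          (x z - x (z + s1) - x (z + s2) + x (z + s1 + s2 + s3))))).re else 0) := by
  unfold prod4 fT
  by_cases h1 : z ∈ T
  · by_cases h2 : z + s1 ∈ T
    · by_cases h3 : z + s2 ∈ T
      · by_cases h4 : z + s1 + s2 + s3 ∈ T
        · simp only [h1, h2, h3, h4, and_self, if_true]
          rw [← ps_neg, ← ps_neg, ← ps_add, ← ps_add, ← ps_add]
          congr 2
          push_cast
          ring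
        · simp [h4]
      · simp [h3]
    · simp [h2]
  · simp [h1]

theorem ev_le (R : Finset (ZMod A)) (hRT : R ⊆ T) (γ : ℝ) (H : ℕ) (hH1 : 1 ≤ H)
    (hH : 2 * (H : ℝ) * γ ≤ 1) (d : ℕ) (s1 s2 s3 z : ZMod A) :
    0.34 * (H : ℝ) ^ 2 * ev A x R γ d s1 s2 s3 z ≤
      ∑ j ∈ range H, ∑ j' ∈ range H,
        prod4 A (fT A x T (d * ((j : ℤ) - j'))) s1 s2 s3 z := by
  have hsum : ∑ j ∈ range H, ∑ j' ∈ range H, prod4 A (fT A x T (d * ((j : ℤ) - j'))) s1 s2 s3 z =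
      if z ∈ T ∧ z + s1 ∈ T ∧ z + s2 ∈ T ∧ z + s1 + s2 + s3 ∈ T then
        ‖∑ j ∈ range H, ps A ((j : ZMod A) * ((d : ZMod A) *
          (x z - x (z + s1) - x (z + s2) + x (z + s1 + s2 + s3))))‖ ^ 2 else 0 := by
    split_ifs with h
    · rw [sum_sq_eq]
      refine Finset.sum_congr rfl fun j _ => Finset.sum_congr rfl fun j' _ => ?_
      rw [prod4_fT, if_pos h]
    · refine Finset.sum_eq_zero fun j _ => Finset.sum_eq_zero fun j' _ => ?_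
      rw [prod4_fT, if_neg h]
  rw [hsum]
  unfold ev
  split_ifs with h1 h2 h2
  · rw [mul_one]
    apply sum_lower A H hH1
    calc 2 * (H : ℝ) * nrm A _ ≤ 2 * (H : ℝ) * γ := by
          gcongr
          exact h1.2.2.2.2
      _ ≤ 1 := hH
  · exact absurd ⟨hRT h1.1, hRT h1.2.1, hRT h1.2.2.1, hRT h1.2.2.2.1⟩ h2
  · rw [mul_zero]; positivity
  · rw [mul_zero]

omit [NeZero A] in
theorem prod4_abs (f : ZMod A → ℂ) (hf : ∀ z, ‖f z‖ ≤ 1) (s1 s2 s3 z : ZMod A) :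
    |prod4 A f s1 s2 s3 z| ≤ 1 := by
  unfold prod4
  refine (Complex.abs_re_le_norm _).trans ?_
  rw [norm_mul, norm_mul, norm_mul, RCLike.norm_conj, RCLike.norm_conj]
  have h := hf
  calc ‖f z‖ * ‖f (z + s1)‖ * ‖f (z + s2)‖ * ‖f (z + s1 + s2 + s3)‖ ≤ 1 * 1 * 1 * 1 := by
        gcongr <;> exact h _
    _ = 1 := by norm_num

/-- the average over everything for one pair in `Q3` -/
noncomputable def SS (Q1 Q2 : Finset ℕ) (p : ℕ × ℕ) (m : ℤ) : ℝ :=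
  av A Q1 fun _ s1 => av A Q2 fun _ s2 => ((p.1 : ℝ) * p.2)⁻¹ *
    ∑ a ∈ range p.1, ∑ a' ∈ range p.2, (A : ℝ)⁻¹ * ∑ z : ZMod A,
      prod4 A (fT A x T ((p.1 * p.2 : ℕ) * m)) s1 s2 (sh A p.1 p.2 a a') z

theorem SS_neg (Q1 Q2 : Finset ℕ) (p : ℕ × ℕ) (m : ℤ) :
    SS A x T Q1 Q2 p (-m) = SS A x T Q1 Q2 p m := by
  unfold SS
  have h : ∀ s1 s2 s3 z : ZMod A, prod4 A (fT A x T ((p.1 * p.2 : ℕ) * -m)) s1 s2 s3 z =
      prod4 A (fT A x T ((p.1 * p.2 : ℕ) * m)) s1 s2 s3 z := by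
    intro s1 s2 s3 z
    rw [mul_neg]
    unfold prod4
    rw [fT_neg, fT_neg, fT_neg, fT_neg, ← map_mul, ← map_mul, ← map_mul, Complex.conj_re]
  simp only [h]

theorem inner_abs (p : ℕ × ℕ) (h1 : 0 < p.1) (h2 : 0 < p.2) (g : ℕ → ℕ → ZMod A → ℝ)
    (hg : ∀ a a' z, |g a a' z| ≤ 1) :
    |((p.1 : ℝ) * p.2)⁻¹ * ∑ a ∈ range p.1, ∑ a' ∈ range p.2, (A : ℝ)⁻¹ * ∑ z : ZMod A, g a a' z| ≤
      1 := by
  have hA0 : 0 < A := Nat.pos_of_ne_zero (NeZero.ne A)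
  have hAR : (0 : ℝ) < A := by exact_mod_cast hA0
  have h1R : (0 : ℝ) < p.1 := by exact_mod_cast h1
  have h2R : (0 : ℝ) < p.2 := by exact_mod_cast h2
  rw [abs_mul, abs_of_pos (by positivity : (0 : ℝ) < ((p.1 : ℝ) * p.2)⁻¹)]
  have h3 : |∑ a ∈ range p.1, ∑ a' ∈ range p.2, (A : ℝ)⁻¹ * ∑ z : ZMod A, g a a' z| ≤
      (p.1 : ℝ) * p.2 := by
    calc _ ≤ ∑ a ∈ range p.1, ∑ a' ∈ range p.2, |(A : ℝ)⁻¹ * ∑ z : ZMod A, g a a' z| := by
          refine (Finset.abs_sum_le_sum_abs _ _).trans (Finset.sum_le_sum fun a _ => ?_)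
          exact Finset.abs_sum_le_sum_abs _ _
      _ ≤ ∑ _a ∈ range p.1, ∑ _a' ∈ range p.2, (1 : ℝ) := by
          refine Finset.sum_le_sum fun a _ => Finset.sum_le_sum fun a' _ => ?_
          rw [abs_mul, abs_of_pos (by positivity : (0 : ℝ) < (A : ℝ)⁻¹)]
          calc (A : ℝ)⁻¹ * |∑ z : ZMod A, g a a' z| ≤ (A : ℝ)⁻¹ * ∑ _z : ZMod A, (1 : ℝ) := by
                gcongr
                refine (Finset.abs_sum_le_sum_abs _ _).trans (Finset.sum_le_sum fun z _ => ?_)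
                exact hg a a' z
            _ = 1 := by
                rw [Finset.sum_const, Finset.card_univ, ZMod.card, nsmul_eq_mul, mul_one]
                exact inv_mul_cancel₀ hAR.ne'
      _ = _ := by simp
  calc ((p.1 : ℝ) * p.2)⁻¹ * |∑ a ∈ range p.1, ∑ a' ∈ range p.2,
        (A : ℝ)⁻¹ * ∑ z : ZMod A, g a a' z| ≤ ((p.1 : ℝ) * p.2)⁻¹ * ((p.1 : ℝ) * p.2) := by gcongr
    _ = 1 := by field_simp

omit [NeZero A] in
theorem av_abs_le (Q : Finset ℕ) (h2 : 2 ≤ Q.card) (hQ : ∀ q ∈ Q, 0 < q) (Φ : ℕ → ZMod A → ℝ)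
    (r : ℝ) (h : ∀ d s, |Φ d s| ≤ r) : |av A Q Φ| ≤ r := by
  rw [abs_le]
  constructor
  · rw [← AvT.av_const A Q h2 hQ (-r)]
    exact AvT.av_mono A Q fun p _ a _ a' _ => (abs_le.mp (h _ _)).1
  · rw [← AvT.av_const A Q h2 hQ r]
    exact AvT.av_mono A Q fun p _ a _ a' _ => (abs_le.mp (h _ _)).2

theorem SS_abs (Q1 Q2 : Finset ℕ) (hQ1 : ∀ q ∈ Q1, 0 < q) (hQ2 : ∀ q ∈ Q2, 0 < q)
    (hc1 : 2 ≤ Q1.card) (hc2 : 2 ≤ Q2.card) (p : ℕ × ℕ) (h1 : 0 < p.1) (h2 : 0 < p.2) (m : ℤ) :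
    |SS A x T Q1 Q2 p m| ≤ 1 := by
  unfold SS
  refine av_abs_le A Q1 hc1 hQ1 _ 1 fun _ s1 => ?_
  refine av_abs_le A Q2 hc2 hQ2 _ 1 fun _ s2 => ?_
  exact inner_abs A p h1 h2 _ fun a a' z => prod4_abs A _ (fT_norm A x T _) _ _ _ _

theorem count_le (R : Finset (ZMod A)) (hRT : R ⊆ T) (Q1 Q2 Q3 : Finset ℕ) (γ : ℝ) (H : ℕ)
    (hH1 : 1 ≤ H) (hH : 2 * (H : ℝ) * γ ≤ 1) :
    0.34 * (H : ℝ) ^ 2 * (av A Q1 fun _ s1 => av A Q2 fun _ s2 => av A Q3 fun d3 s3 =>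
        (A : ℝ)⁻¹ * ∑ z, ev A x R γ d3 s1 s2 s3 z) ≤
      ∑ j ∈ range H, ∑ j' ∈ range H, (Q3.offDiag.card : ℝ)⁻¹ *
        ∑ p ∈ Q3.offDiag, SS A x T Q1 Q2 p ((j : ℤ) - j') := by
  have h1 : 0.34 * (H : ℝ) ^ 2 * (av A Q1 fun _ s1 => av A Q2 fun _ s2 => av A Q3 fun d3 s3 =>
        (A : ℝ)⁻¹ * ∑ z, ev A x R γ d3 s1 s2 s3 z) ≤
      av A Q1 fun _ s1 => av A Q2 fun _ s2 => av A Q3 fun d3 s3 =>
        ∑ j ∈ range H, ∑ j' ∈ range H, (A : ℝ)⁻¹ * ∑ z,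
          prod4 A (fT A x T (d3 * ((j : ℤ) - j'))) s1 s2 s3 z := by
    rw [← AvT.av_mul]
    refine AvT.av_mono A Q1 fun p1 _ a1 _ a1' _ => ?_
    rw [← AvT.av_mul]
    refine AvT.av_mono A Q2 fun p2 _ a2 _ a2' _ => ?_
    rw [← AvT.av_mul]
    refine AvT.av_mono A Q3 fun p3 _ a3 _ a3' _ => ?_
    calc _ = (A : ℝ)⁻¹ * ∑ z, 0.34 * (H : ℝ) ^ 2 * ev A x R γ (p3.1 * p3.2)
            (sh A p1.1 p1.2 a1 a1') (sh A p2.1 p2.2 a2 a2') (sh A p3.1 p3.2 a3 a3') z := by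
          rw [← Finset.mul_sum]; ring
      _ ≤ (A : ℝ)⁻¹ * ∑ z, ∑ j ∈ range H, ∑ j' ∈ range H,
            prod4 A (fT A x T ((p3.1 * p3.2 : ℕ) * ((j : ℤ) - j')))
            (sh A p1.1 p1.2 a1 a1') (sh A p2.1 p2.2 a2 a2') (sh A p3.1 p3.2 a3 a3') z := by
          apply mul_le_mul_of_nonneg_left _ (by positivity)
          exact Finset.sum_le_sum fun z _ => ev_le A x T R hRT γ H hH1 hH _ _ _ _ z
      _ = _ := by
          rw [Finset.sum_comm, Finset.mul_sum]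
          refine Finset.sum_congr rfl fun j _ => ?_
          rw [Finset.sum_comm, Finset.mul_sum]
  refine h1.trans (le_of_eq ?_)
  -- interchange
  have h2 : ∀ s1 s2 : ZMod A, (av A Q3 fun d3 s3 =>
        ∑ j ∈ range H, ∑ j' ∈ range H, (A : ℝ)⁻¹ * ∑ z,
          prod4 A (fT A x T (d3 * ((j : ℤ) - j'))) s1 s2 s3 z) =
      ∑ j ∈ range H, ∑ j' ∈ range H, ∑ p ∈ Q3.offDiag, (Q3.offDiag.card : ℝ)⁻¹ *
        (((p.1 : ℝ) * p.2)⁻¹ * ∑ a ∈ range p.1, ∑ a' ∈ range p.2, (A : ℝ)⁻¹ * ∑ z : ZMod A,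
          prod4 A (fT A x T ((p.1 * p.2 : ℕ) * ((j : ℤ) - j'))) s1 s2 (sh A p.1 p.2 a a') z) := by
    intro s1 s2
    rw [AvT.av_sum]
    refine Finset.sum_congr rfl fun j _ => ?_
    rw [AvT.av_sum]
    refine Finset.sum_congr rfl fun j' _ => ?_
    rw [← Finset.mul_sum]
    rfl
  simp only [h2]
  have h3 : ∀ s1 : ZMod A, (av A Q2 fun _ s2 =>
      ∑ j ∈ range H, ∑ j' ∈ range H, ∑ p ∈ Q3.offDiag, (Q3.offDiag.card : ℝ)⁻¹ *
        (((p.1 : ℝ) * p.2)⁻¹ * ∑ a ∈ range p.1, ∑ a' ∈ range p.2, (A : ℝ)⁻¹ * ∑ z : ZMod A,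
          prod4 A (fT A x T ((p.1 * p.2 : ℕ) * ((j : ℤ) - j'))) s1 s2 (sh A p.1 p.2 a a') z)) =
      ∑ j ∈ range H, ∑ j' ∈ range H, ∑ p ∈ Q3.offDiag, (Q3.offDiag.card : ℝ)⁻¹ *
        (av A Q2 fun _ s2 =>
        (((p.1 : ℝ) * p.2)⁻¹ * ∑ a ∈ range p.1, ∑ a' ∈ range p.2, (A : ℝ)⁻¹ * ∑ z : ZMod A,
          prod4 A (fT A x T ((p.1 * p.2 : ℕ) * ((j : ℤ) - j'))) s1 s2 (sh A p.1 p.2 a a') z)) := by
    intro s1
    rw [AvT.av_sum]
    refine Finset.sum_congr rfl fun j _ => ?_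
    rw [AvT.av_sum]
    refine Finset.sum_congr rfl fun j' _ => ?_
    rw [AvT.av_sum]
    refine Finset.sum_congr rfl fun p _ => ?_
    rw [AvT.av_mul]
  simp only [h3]
  rw [AvT.av_sum]
  refine Finset.sum_congr rfl fun j _ => ?_
  rw [AvT.av_sum]
  refine Finset.sum_congr rfl fun j' _ => ?_
  rw [AvT.av_sum, Finset.mul_sum]
  refine Finset.sum_congr rfl fun p _ => ?_
  rw [AvT.av_mul]
  rfl

end Pop

open Classical in
theorem pop (A : ℕ) [NeZero A] (x : ZMod A → ZMod A) (T R : Finset (ZMod A)) (hRT : R ⊆ T)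
    (Q1 Q2 Q3 : Finset ℕ)
    (hQ1 : ∀ q ∈ Q1, q.Prime ∧ q ∣ A) (hQ2 : ∀ q ∈ Q2, q.Prime ∧ q ∣ A)
    (hQ3 : ∀ q ∈ Q3, q.Prime ∧ q ∣ A) (hc1 : 2 ≤ Q1.card) (hc2 : 2 ≤ Q2.card)
    (hc3 : 2 ≤ Q3.card) (θ γ : ℝ) (hθ : 0 < θ) (hθ1 : θ ≤ 1) (hγ : 0 ≤ γ) (H : ℕ) (hH1 : 2 ≤ H)
    (hH : 2 * (H : ℝ) * γ ≤ 1) (hHθ : 10 ≤ H * θ)
    (hcount : θ ≤ av A Q1 fun _ s1 => av A Q2 fun _ s2 => av A Q3 fun d3 s3 =>
        (A : ℝ)⁻¹ * ∑ z, ev A x R γ d3 s1 s2 s3 z)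
    (V K ε : ℝ) (hV : ∀ k : ℤ, tv A (fT A x T k) ≤ V) (hK : 1 ≤ K) (hVK : V ^ 2 ≤ K)
    (hε1 : ∀ k : ℤ, k ≠ 0 → |(k : ℝ)| ≤ 2 * K →
      ((Q1.filter fun q : ℕ => (q : ℤ) ∣ k).card : ℝ) ^ 2 ≤ ε * Q1.offDiag.card)
    (hε2 : ∀ k : ℤ, k ≠ 0 → |(k : ℝ)| ≤ 2 * K →
      ((Q2.filter fun q : ℕ => (q : ℤ) ∣ k).card : ℝ) ^ 2 ≤ ε * Q2.offDiag.card)
    (herr : 2 * ε + 2 * V / Real.sqrt K ≤ θ / 20) :
    ∃ h : ℕ, 1 ≤ h ∧ h < H ∧ θ / 16 * Q3.offDiag.card ≤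
      ((Q3.offDiag.filter fun p => ∃ k : ℤ, (p.1 : ℤ) ∣ k ∧ (p.2 : ℤ) ∣ k ∧
        2 * |k| ≤ A ∧ θ / 16 ≤ ‖ft A (fT A x T (p.1 * p.2 * h : ℕ)) (k : ZMod A)‖ ^ 2).card : ℝ) := by
  have hA0 : 0 < A := Nat.pos_of_ne_zero (NeZero.ne A)
  have hAR : (0 : ℝ) < A := by exact_mod_cast hA0
  have hHR : (2 : ℝ) ≤ H := by exact_mod_cast hH1
  have hQ1p : ∀ q ∈ Q1, 0 < q := fun q hq => (hQ1 q hq).1.pos
  have hQ2p : ∀ q ∈ Q2, 0 < q := fun q hq => (hQ2 q hq).1.pos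
  have hO : (0 : ℝ) < Q3.offDiag.card := by exact_mod_cast AvT.card_pos Q3 hc3
  -- the averages
  set M : ℤ → ℝ := fun m => (Q3.offDiag.card : ℝ)⁻¹ *
    ∑ p ∈ Q3.offDiag, |Pop.SS A x T Q1 Q2 p m| with hM
  have hMneg : ∀ m, M (-m) = M m := by
    intro m
    simp only [hM, Pop.SS_neg]
  have hpos3 : ∀ p ∈ Q3.offDiag, 0 < p.1 ∧ 0 < p.2 := by
    intro p hp
    rw [Finset.mem_offDiag] at hp
    exact ⟨(hQ3 _ hp.1).1.pos, (hQ3 _ hp.2.1).1.pos⟩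
  have hM1 : ∀ m, M m ≤ 1 := by
    intro m
    simp only [hM]
    calc (Q3.offDiag.card : ℝ)⁻¹ * ∑ p ∈ Q3.offDiag, |Pop.SS A x T Q1 Q2 p m|
        ≤ (Q3.offDiag.card : ℝ)⁻¹ * ∑ _p ∈ Q3.offDiag, (1 : ℝ) := by
          apply mul_le_mul_of_nonneg_left _ (by positivity)
          refine Finset.sum_le_sum fun p hp => ?_
          exact Pop.SS_abs A x T Q1 Q2 hQ1p hQ2p hc1 hc2 p (hpos3 p hp).1 (hpos3 p hp).2 m
      _ = 1 := by
          rw [Finset.sum_const, nsmul_eq_mul, mul_one]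
          exact inv_mul_cancel₀ hO.ne'
  have hMtot : 0.34 * (H : ℝ) ^ 2 * θ ≤ ∑ j ∈ range H, ∑ j' ∈ range H, M ((j : ℤ) - j') := by
    calc 0.34 * (H : ℝ) ^ 2 * θ ≤ 0.34 * (H : ℝ) ^ 2 * (av A Q1 fun _ s1 => av A Q2 fun _ s2 =>
          av A Q3 fun d3 s3 => (A : ℝ)⁻¹ * ∑ z, ev A x R γ d3 s1 s2 s3 z) := by gcongr
      _ ≤ _ := Pop.count_le A x T R hRT Q1 Q2 Q3 γ H (by omega) hH
      _ ≤ _ := by
          refine Finset.sum_le_sum fun j _ => Finset.sum_le_sum fun j' _ => ?_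
          simp only [hM]
          apply mul_le_mul_of_nonneg_left _ (by positivity)
          exact Finset.sum_le_sum fun p _ => le_abs_self _
  -- a good `h`
  obtain ⟨j, hj, j', hj', hne, hjj⟩ : ∃ j ∈ range H, ∃ j' ∈ range H, j ≠ j' ∧
      0.24 * θ ≤ M ((j : ℤ) - j') := by
    by_contra hcon
    push Not at hcon
    have h1 : ∑ j ∈ range H, ∑ j' ∈ range H, M ((j : ℤ) - j') ≤
        ∑ j ∈ range H, ∑ j' ∈ range H, (0.24 * θ + if j = j' then 1 else 0) := by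
      refine Finset.sum_le_sum fun j hj => Finset.sum_le_sum fun j' hj' => ?_
      by_cases h : j = j'
      · rw [if_pos h]
        have := hM1 ((j : ℤ) - j')
        linarith [hθ]
      · rw [if_neg h, add_zero]
        exact (hcon j hj j' hj' h).le
    have h2 : ∑ j ∈ range H, ∑ j' ∈ range H, (0.24 * θ + if j = j' then (1 : ℝ) else 0) =
        0.24 * θ * H ^ 2 + H := by
      simp only [Finset.sum_add_distrib, Finset.sum_const, Finset.card_range, nsmul_eq_mul,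
        Finset.sum_ite_eq]
      have h3 : ∑ j ∈ range H, (if j ∈ range H then (1 : ℝ) else 0) = H := by
        rw [Finset.sum_ite_mem, Finset.inter_self, Finset.sum_const, Finset.card_range,
          nsmul_eq_mul, mul_one]
      rw [h3]
      ring
    have h3 : (H : ℝ) ≤ 0.1 * θ * H ^ 2 := by
      calc (H : ℝ) = 0.1 * (10 * H) := by ring
        _ ≤ 0.1 * ((H * θ) * H) := by gcongr
        _ = 0.1 * θ * H ^ 2 := by ring
    -- strictness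
    have h4 : ∑ j ∈ range H, ∑ j' ∈ range H, M ((j : ℤ) - j') <
        ∑ j ∈ range H, ∑ j' ∈ range H, (0.24 * θ + if j = j' then (1 : ℝ) else 0) := by
      apply Finset.sum_lt_sum
      · intro j hj
        refine Finset.sum_le_sum fun j' hj' => ?_
        by_cases h : j = j'
        · rw [if_pos h]
          have := hM1 ((j : ℤ) - j')
          linarith [hθ]
        · rw [if_neg h, add_zero]
          exact (hcon j hj j' hj' h).le
      · refine ⟨0, by simp; omega, ?_⟩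
        apply Finset.sum_lt_sum
        · intro j' hj'
          by_cases h : 0 = j'
          · rw [if_pos h]
            exact (hM1 _).trans (by linarith [hθ])
          · rw [if_neg h, add_zero]
            exact (hcon 0 (by simp; omega) j' hj' h).le
        · refine ⟨1, by simp; omega, ?_⟩
          rw [if_neg (by norm_num), add_zero]
          exact hcon 0 (by simp; omega) 1 (by simp; omega) (by norm_num)
    rw [h2] at h4
    nlinarith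
  rw [Finset.mem_range] at hj hj'
  -- h = |j - j'|
  obtain ⟨h, hh1, hhH, hMh⟩ : ∃ h : ℕ, 1 ≤ h ∧ h < H ∧ 0.24 * θ ≤ M h := by
    refine ⟨((j : ℤ) - j').natAbs, ?_, ?_, ?_⟩
    · have : (j : ℤ) - j' ≠ 0 := by omega
      omega
    · omega
    · rcases Int.natAbs_eq ((j : ℤ) - j') with h | h
      · rw [← h]; exact hjj
      · have h5 : ((((j : ℤ) - j').natAbs : ℕ) : ℤ) = -((j : ℤ) - j') := by omega
        rw [h5, hMneg]; exact hjj
  refine ⟨h, hh1, hhH, ?_⟩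
  set Gd := Q3.offDiag.filter fun p => ∃ k : ℤ, (p.1 : ℤ) ∣ k ∧ (p.2 : ℤ) ∣ k ∧
        2 * |k| ≤ A ∧ θ / 16 ≤ ‖ft A (fT A x T (p.1 * p.2 * h : ℕ)) (k : ZMod A)‖ ^ 2 with hGd
  -- every pair
  have hpair : ∀ p ∈ Q3.offDiag, |Pop.SS A x T Q1 Q2 p h| ≤
      (if p ∈ Gd then 1 else 0) + (θ / 16 + θ / 20) := by
    intro p hp
    have hp' := Finset.mem_offDiag.mp hp
    by_cases hG : p ∈ Gd
    · rw [if_pos hG]
      have := Pop.SS_abs A x T Q1 Q2 hQ1p hQ2p hc1 hc2 p (hpos3 p hp).1 (hpos3 p hp).2 h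
      linarith [hθ]
    · rw [if_neg hG, zero_add]
      have hcast : (((p.1 * p.2 : ℕ) : ℤ) * (h : ℤ)) = ((p.1 * p.2 * h : ℕ) : ℤ) := by
        push_cast; ring
      have htr := transfer A Q1 Q2 hQ1 hQ2 hc1 hc2 p.1 p.2 (hQ3 _ hp'.1).1 (hQ3 _ hp'.2.1).1
        hp'.2.2 (hQ3 _ hp'.1).2 (hQ3 _ hp'.2.1).2 (fT A x T ((p.1 * p.2 * h : ℕ) : ℤ))
        (Pop.fT_norm A x T _) V K ε (hV _) hK hVK hε1 hε2
      have hSS : Pop.SS A x T Q1 Q2 p h = av A Q1 fun _ s1 => av A Q2 fun _ s2 =>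
          ((p.1 : ℝ) * p.2)⁻¹ *
        ∑ a ∈ range p.1, ∑ a' ∈ range p.2, (A : ℝ)⁻¹ * ∑ z : ZMod A,
          (fT A x T ((p.1 * p.2 * h : ℕ) : ℤ) z *
            (starRingEnd ℂ) (fT A x T ((p.1 * p.2 * h : ℕ) : ℤ) (z + s1)) *
            (starRingEnd ℂ) (fT A x T ((p.1 * p.2 * h : ℕ) : ℤ) (z + s2)) *
            fT A x T ((p.1 * p.2 * h : ℕ) : ℤ) (z + s1 + s2 + sh A p.1 p.2 a a')).re := by
        unfold Pop.SS Pop.prod4
        rw [hcast]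
      rw [hSS]
      refine htr.trans ?_
      set f := fT A x T ((p.1 * p.2 * h : ℕ) : ℤ) with hf
      have hpar : ∑ k, ‖ft A f k‖ ^ 2 ≤ 1 := by
        rw [parseval]
        calc (A : ℝ)⁻¹ * ∑ z, ‖f z‖ ^ 2 ≤ (A : ℝ)⁻¹ * ∑ _z : ZMod A, (1 : ℝ) := by
              gcongr with z
              have h5 := Pop.fT_norm A x T ((p.1 * p.2 * h : ℕ) : ℤ) z
              have h6 : 0 ≤ ‖f z‖ := norm_nonneg _
              rw [← hf] at h5
              nlinarith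
          _ = 1 := by
              rw [Finset.sum_const, Finset.card_univ, ZMod.card, nsmul_eq_mul, mul_one]
              exact inv_mul_cancel₀ hAR.ne'
      have hfour : ∑ k ∈ univ.filter (fun k : ZMod A => (p.1 : ℤ) ∣ k.valMinAbs ∧
          (p.2 : ℤ) ∣ k.valMinAbs), ‖ft A f k‖ ^ 4 ≤ θ / 16 := by
        calc _ ≤ ∑ k ∈ univ.filter (fun k : ZMod A => (p.1 : ℤ) ∣ k.valMinAbs ∧
              (p.2 : ℤ) ∣ k.valMinAbs), θ / 16 * ‖ft A f k‖ ^ 2 := by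
              refine Finset.sum_le_sum fun k hk => ?_
              have hk' := (Finset.mem_filter.mp hk).2
              have h5 : ‖ft A f k‖ ^ 2 ≤ θ / 16 := by
                by_contra hcon
                push Not at hcon
                apply hG
                rw [hGd, Finset.mem_filter]
                refine ⟨hp, k.valMinAbs, hk'.1, hk'.2, ?_, ?_⟩
                · have h6 := ZMod.natAbs_valMinAbs_le k
                  have h7 : |k.valMinAbs| = (k.valMinAbs.natAbs : ℤ) := Int.abs_eq_natAbs _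
                  rw [h7]
                  have h8 : 2 * k.valMinAbs.natAbs ≤ A := by
                    have := Nat.div_mul_le_self A 2
                    omega
                  exact_mod_cast h8
                · rw [ZMod.coe_valMinAbs]
                  exact hcon.le
              calc ‖ft A f k‖ ^ 4 = ‖ft A f k‖ ^ 2 * ‖ft A f k‖ ^ 2 := by ring
                _ ≤ θ / 16 * ‖ft A f k‖ ^ 2 := by gcongr
          _ ≤ ∑ k, θ / 16 * ‖ft A f k‖ ^ 2 := by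
              apply Finset.sum_le_sum_of_subset_of_nonneg (Finset.filter_subset _ _)
              intro k _ _
              positivity
          _ = θ / 16 * ∑ k, ‖ft A f k‖ ^ 2 := by rw [Finset.mul_sum]
          _ ≤ θ / 16 * 1 := by gcongr
          _ = θ / 16 := mul_one _
      linarith
  have hfin : 0.24 * θ * Q3.offDiag.card ≤ Gd.card + (θ / 16 + θ / 20) * Q3.offDiag.card := by
    have h5 : M h * Q3.offDiag.card = ∑ p ∈ Q3.offDiag, |Pop.SS A x T Q1 Q2 p h| := by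
      simp only [hM]
      field_simp
    calc 0.24 * θ * Q3.offDiag.card ≤ M h * Q3.offDiag.card := by gcongr
      _ = _ := h5
      _ ≤ ∑ p ∈ Q3.offDiag, ((if p ∈ Gd then 1 else 0) + (θ / 16 + θ / 20)) :=
          Finset.sum_le_sum hpair
      _ = _ := by
          rw [Finset.sum_add_distrib, Finset.sum_const, nsmul_eq_mul, Finset.sum_ite_mem,
            Finset.sum_const, nsmul_eq_mul, mul_one]
          have h6 : Q3.offDiag ∩ Gd = Gd := by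
            rw [Finset.inter_eq_right]
            exact Finset.filter_subset _ _
          rw [h6]
          ring
  nlinarith [mul_pos hθ hO]

end Stz
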